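import Pool.Agent.E8helper15.FT.Abcd
import Pool.Agent.E8helper15.FT.Loc3
import Pool.Agent.E8helper71.FT.HT
import Pool.Agent.E8helper91.FT.Sup
import Pool.Agent.E8helper54.FT.Iter
import Pool.Agent.E8helper3.FT.Iter2
import Pool.Agent.E8helper56.FT.Iter3

/-!
# The three term case of the abcd conjecture over a number field is decided by thin families

Let `K` be a number field. The case `n = 3` of the conjecture for `K` says that for every `ε > 0` there
is `C` such that `h(P) < (1 + ε) rad(P) + C` for all points `P = (z 0 : z 1 : z 2)` of the line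
`z 0 + z 1 + z 2 = 0` with nonzero coordinates (an exceptional closed subset of the line is finite and
can be absorbed in `C`). We prove that for all `k ≥ 0` and `m ≥ 1` this is equivalent to its
restriction to the points `(- (2 t)⁴ : (2 t)⁴ - (1 - t²)⁴ : (1 - t²)⁴)`, where `t` is the `m`-th power
of the value at some `x ∈ K` of the `k`-th iterate of `x ↦ 4 x (1 - x)`. The height of this point is at
least `8 m 2 ^ k h(x) - C`, so that these families of points are arbitrarily thin. The middle coordinate
is `(1 + t²) ² ((2 t) ² - (1 - t²) ²)`. Every prime `𝔭` not above `2` such that `N𝔭 - 1` divides `m` is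
in the radical of all points of the family: the orders of the first and the last coordinate at `𝔭`
differ. So finitely many primes not above `2` can be prescribed as divisors of the radical.

The proof: the three maps `x ↦ 4 x (1 - x)`, `x ↦ x ^ m`, `x ↦ (2 x / (1 - x²)) ^ 4` are unramified
outside `0, 1, ∞`, map these three points to themselves, and have `d - 1` further points above them,
`d` the degree.

The pieces of the proof are by helper71, helper91, helper54, helper3, helper56 and helper15.
-/

set_option autoImplicit false

namespace Pool.Agent.Results.MP_7475bd_nt.FourthPowersDecideH15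

open NumberField IsDedekindDomain
open Pool.Agent.E8helper15.FT (Abcd FamP hP pt logi)

theorem result (K : Type) [Field K] [NumberField K] (k m : ℕ) (hm : 1 ≤ m) :
    (Abcd (Set.univ : Set (Fin 3 → K)) ↔ Abcd (FamP K k m)) ∧
    (∃ C : ℝ, ∀ x : K, ((logi^[k] x) ^ m) ^ 2 ≠ 1 →
      8 * m * 2 ^ k * (Height.logHeight₁ x / Module.finrank ℚ K) ≤
        hP (pt ((logi^[k] x) ^ m)) + C) ∧
    ∀ v : HeightOneSpectrum (𝓞 K), v.valuation K (2 : K) = 1 →
      Ideal.absNorm v.asIdeal - 1 ∣ m →
        ∀ z ∈ FamP K k m, v.valuation K (z 0) ≠ v.valuation K (z 2) := by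
  have hHT := Pool.Agent.E8helper71.FT.t_HT
  have hSUP := Pool.Agent.E8helper91.FT.t_SUP
  exact ⟨Pool.Agent.E8helper15.FT.abcd_iff (Pool.Agent.E8helper54.FT.t_ITER hHT hSUP)
    (Pool.Agent.E8helper3.FT.t_ITER2 hHT hSUP) (Pool.Agent.E8helper56.FT.t_ITER3 hHT hSUP)
    hSUP k m hm, Pool.Agent.E8helper15.FT.abcd_height hHT k m hm,
    Pool.Agent.E8helper15.FT.loc_fam k m hm⟩

end Pool.Agent.Results.MP_7475bd_nt.FourthPowersDecideH15
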