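import Pool.Agent.E8helper63.FA.Bdd

/-!
# MP_7475bd_nt: the abcd conjecture over `k(t)` for points with moving constants

Let `k` be a field of characteristic `0` and `n = m + 2 ≥ 3`. A point of the hyperplane
`Z_1 + ... + Z_n = 0` over `k(t)` without zero coordinates is written with coprime polynomial
coordinates `a : Fin (m + 2) → k[X]` (`Pt a`, which also says that the point is not constant).
Its height is `ht a`, the maximum of the degrees, and its radical is `rad a = fr a + inf a`, where
`fr a` is the degree of the radical of the product of the coordinates and `inf a` is `0` if all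
the coordinates have the same degree and `1` otherwise (the place at infinity).

1. If `τ ≥ 1` quotients of the coordinates are algebraically independent over `ℚ` and (for `τ < m`)
   the coordinates satisfy no further linear relation with coefficients in `k` that are algebraic
   over `ℚ`, then `h + 2 ≤ binomial (n - τ) 2 * fr + inf`.
2. In particular a point that lies on no hypersurface over `ℚ` (`τ = m`) has `h ≤ rad - 2`.
3. For all `n` and `H` there is one hypersurface over `ℚ` such that, for every field `k` of
   characteristic `0`, all points over `k(t)` of height at most `H` outside this hypersurface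
   satisfy `h ≤ rad - 2`.
4. This is sharp: for all `m, h ≥ 1` there are points that lie on no hypersurface over `ℚ`, of
   height `h`, with `h = rad - 2`.
-/

namespace Pool.Agent.Results.MP_7475bd_nt.MovingConstantsH63

open Polynomial Pool.Agent.E8helper63.FA

universe u

/-- The quotient of two coordinates. -/
noncomputable def quo {k : Type*} [Field k] {n : ℕ} (a : Fin n → k[X]) (i₀ i : Fin n) : RatFunc k :=
  algebraMap k[X] (RatFunc k) (a i) / algebraMap k[X] (RatFunc k) (a i₀)

/-- Some `τ` quotients of the coordinates are algebraically independent over `ℚ`. -/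
def Indep (τ : ℕ) {k : Type*} [Field k] [CharZero k] {n : ℕ} (a : Fin n → k[X]) : Prop :=
  ∃ (i₀ : Fin n) (e : Fin τ → Fin n), AlgebraicIndependent ℚ fun j => quo a i₀ (e j)

/-- The only linear relations of the coordinates with coefficients in `k` that are algebraic over
`ℚ` are the multiples of their sum. -/
def NoRel {k : Type*} [Field k] [CharZero k] {n : ℕ} (a : Fin n → k[X]) : Prop :=
  ∀ c : Fin n → k, (∀ i, IsAlgebraic ℚ (c i)) → ∑ i, C (c i) * a i = 0 → ∀ i j, c i = c j

/-- The radical. -/
noncomputable def rad {k : Type*} [Field k] {n : ℕ} (a : Fin n → k[X]) : ℕ := fr a + inf a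

theorem result :
    (∀ (k : Type u) [Field k] [CharZero k] (m τ : ℕ) (a : Fin (m + 2) → k[X]), 1 ≤ τ → τ ≤ m →
      Pt a → Indep τ a → (τ < m → NoRel a) →
      ht a + 2 ≤ (m + 2 - τ).choose 2 * fr a + inf a) ∧
    (∀ (k : Type u) [Field k] [CharZero k] (m : ℕ) (a : Fin (m + 2) → k[X]), 1 ≤ m → Pt a →
      Indep m a → ht a + 2 ≤ rad a) ∧
    (∀ m H : ℕ, 1 ≤ m → ∃ F : MvPolynomial (Fin m) ℚ, F ≠ 0 ∧
      ∀ (k : Type u) [Field k] [CharZero k] (a : Fin (m + 2) → k[X]), Pt a → ht a ≤ H →
        MvPolynomial.aeval (fun j : Fin m => quo a (Fin.last (m + 1)) j.castSucc.castSucc) F ≠ 0 →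
        ht a + 2 ≤ rad a) ∧
    ∀ m h : ℕ, 1 ≤ m → 1 ≤ h →
      ∃ (k : Type) (_ : Field k) (_ : CharZero k) (a : Fin (m + 2) → k[X]),
        Pt a ∧ Indep m a ∧ ht a = h ∧ ht a + 2 = rad a := by
  refine ⟨?_, ?_, ?_, fun m h hm hh => ?_⟩
  · rintro k _ _ m τ a hτ hτm ha ⟨i₀, e, halg⟩ hlin
    exact ha.ineq hτ (by omega) i₀ e halg (fun h => hlin (by omega))
  · rintro k _ _ m a hm ha ⟨i₀, e, halg⟩
    have h1 := ha.ineq (τ := m) hm le_rfl i₀ e halg (fun h => absurd h (by omega))
    have h2 : m + 2 - m = 2 := by omega
    rwa [h2, Nat.choose_self, one_mul] at h1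
  · intro m H hm
    obtain ⟨M, rfl⟩ : ∃ M, m = M + 1 := ⟨m - 1, by omega⟩
    exact bounded M H
  · obtain ⟨k, fld, cz, a, i₀, e, h1, h2, h3, h4⟩ := sharp m h hm hh
    exact ⟨k, fld, cz, a, h1, ⟨i₀, e, h4⟩, h2, h3⟩

end Pool.Agent.Results.MP_7475bd_nt.MovingConstantsH63
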